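import Pool.Agent.N798.T.Stm

set_option autoImplicit false

/-!
# Project T, part CU (helper262): from the cubes to the positive orthant

Adapted from the last part of `Pool/Agent/Y65/VK/PiAll.lean`.
-/

namespace Pool.Agent.N262.T

open Finset MeasureTheory Filter Topology
open scoped ENNReal
open Pool.Agent.N798.T

theorem cu : S_CU := by
  intro k P hP
  have hmeas : MeasurableSet {α : Fin k → ℝ | ∀ i, 0 < α i} := by
    have e : {α : Fin k → ℝ | ∀ i, 0 < α i} = Set.pi Set.univ (fun _ => Set.Ioi (0 : ℝ)) := by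
      ext α
      simp
    rw [e]
    exact MeasurableSet.univ_pi fun _ => measurableSet_Ioi
  rw [ae_restrict_iff' hmeas]
  have hcube : MeasurableSet (Set.pi Set.univ (fun _ : Fin k => Set.Icc (0 : ℝ) 1)) :=
    MeasurableSet.univ_pi fun _ => measurableSet_Icc
  have key : ∀ b : Fin k → ℤ, (volume : Measure (Fin k → ℝ))
      {ω | ω ∈ Set.pi Set.univ (fun _ : Fin k => Set.Icc (0 : ℝ) 1) ∧
        ¬ P (fun i => Real.exp (b i + ω i))} = 0 := by
    intro b
    have h3 := hP (fun j => if h : j < k then (b ⟨j, h⟩ : ℝ) else 0)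
    unfold mu at h3
    rw [← Measure.restrict_pi_pi, ← volume_pi, ae_restrict_iff' hcube] at h3
    rw [ae_iff] at h3
    refine measure_mono_null ?_ h3
    intro ω hω
    simp only [Set.mem_setOf_eq, Classical.not_imp]
    refine ⟨hω.1, ?_⟩
    have h4 : (fun j : Fin k => al (fun j => if h : j < k then (b ⟨j, h⟩ : ℝ) else 0) k ω j) =
        fun i => Real.exp (b i + ω i) := by
      funext i
      have h5 := hω.1 i (Set.mem_univ i)
      simp only [al, i.isLt, dif_pos, Fin.eta]
      rw [min_eq_right h5.2, max_eq_right h5.1]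
    rw [h4]
    exact hω.2
  rw [ae_iff]
  refine measure_mono_null ?_ (measure_iUnion_null fun b : Fin k → ℤ =>
    addHaar_image_eq_zero_of_differentiableOn_of_addHaar_eq_zero (volume : Measure (Fin k → ℝ))
      (f := fun ω i => Real.exp (b i + ω i)) ?_ (key b))
  · intro α hα
    simp only [Set.mem_setOf_eq, Classical.not_imp] at hα
    obtain ⟨hα1, hα2⟩ := hα
    rw [Set.mem_iUnion]
    have e : (fun i => Real.exp (((⌊Real.log (α i)⌋ : ℤ) : ℝ) + Int.fract (Real.log (α i)))) = α := by
      funext i
      rw [Int.floor_add_fract, Real.exp_log (hα1 i)]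
    refine ⟨fun i => ⌊Real.log (α i)⌋, fun i => Int.fract (Real.log (α i)), ⟨?_, ?_⟩, e⟩
    · intro i _
      exact ⟨Int.fract_nonneg _, (Int.fract_lt_one _).le⟩
    · rw [e]
      exact hα2
  · apply Differentiable.differentiableOn
    rw [differentiable_pi]
    intro i
    exact ((differentiable_apply i).const_add _).exp

end Pool.Agent.N262.T
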